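import Pool.Agent.H170.NHN.Cover

/-!
# Countable partitions of Polish groups into naively Haar null sets, in ZFC

If a Polish group `G` has an uncountable closed central section (closed subgroups `N`, `M` with `N`
normal, `[G, M] ⊆ N` and `M / N` uncountable), then `G` is the union of countably many pairwise
disjoint naively Haar null sets, so that the naively Haar null sets are not a σ-ideal. This includes
all uncountable abelian, and all uncountable nilpotent, Polish groups.

Proof. A Cantor set `K = ⋃ Pₙ` in `M` whose differences in `M / N` are distinct is given by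
Mycielski's theorem. In the incidence graph between the points `x` of `G / N` and the pairs `(n, t)`,
where `x` is incident with `(n, t)` if `x ∈ Pₙ t`, two vertices have finitely many common
neighbours. So the graph has an orientation with finite outdegrees (Erdős and Hajnal), and giving to
`x` a colour `n` such that no edge from `x` leads to a pair `(n, t)` gives sets `Sₙ` which meet every
translate of `Pₙ` in a finite set. A continuous measure on `Pₙ` is a witness for `Sₙ`.
-/

set_option autoImplicit false

namespace Pool.Agent.Results.MP_8b9ec4_lc.CentralSection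

open Set MeasureTheory Function Pool.Agent.H170.NHN
open scoped commutatorElement

universe u

/-- The family `F` of subsets of `G` is closed under taking subsets and under countable unions. -/
def IsSigmaIdeal {G : Type u} (F : Set (Set G)) : Prop :=
  (∀ A ∈ F, ∀ B, B ⊆ A → B ∈ F) ∧ ∀ S : ℕ → Set G, (∀ n, S n ∈ F) → (⋃ n, S n) ∈ F

/-- `G` has a partition into countably many naively Haar null sets, and the naively Haar null sets
are not a σ-ideal. -/
def Splits (G : Type u) [Group G] [MeasurableSpace G] : Prop :=
  (∃ S : ℕ → Set G, (∀ n, NaivelyHaarNull (S n)) ∧ Pairwise (Disjoint on S) ∧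
    ⋃ n, S n = univ) ∧ ¬ IsSigmaIdeal {X : Set G | NaivelyHaarNull X}

theorem not_univ (G : Type u) [Group G] [MeasurableSpace G] :
    ¬ NaivelyHaarNull (univ : Set G) := by
  rintro ⟨μ, hμ, h⟩
  have h1 := h 1 1
  simp only [one_mul, mul_one, image_id'] at h1
  rw [measure_univ] at h1
  exact one_ne_zero h1

theorem splits_of_section {G : Type u} [Group G] [TopologicalSpace G] [IsTopologicalGroup G]
    [PolishSpace G] [MeasurableSpace G] [BorelSpace G] (N M : Subgroup G) (hn : N.Normal)
    (hN : IsClosed (N : Set G)) (hM : IsClosed (M : Set G))
    (hcomm : ∀ g : G, ∀ m ∈ M, g * m * g⁻¹ * m⁻¹ ∈ N)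
    (hun : Uncountable (M ⧸ N.subgroupOf M)) : Splits G := by
  obtain ⟨S, h1, h2, h3⟩ := cover N M hn hN hM hcomm hun
  refine ⟨⟨S, h1, h2, h3⟩, fun h => ?_⟩
  have := h.2 S h1
  rw [h3] at this
  exact not_univ G this

theorem splits_of_nilpotent {G : Type u} [Group G] [TopologicalSpace G] [IsTopologicalGroup G]
    [PolishSpace G] [MeasurableSpace G] [BorelSpace G] [Uncountable G]
    (hnil : Group.IsNilpotent G) : Splits G := by
  obtain ⟨n, hn⟩ := hnil.nilpotent'
  have hclosed : ∀ i, IsClosed ((Subgroup.upperCentralSeries G i : Subgroup G) : Set G) := by
    intro i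
    induction i with
    | zero =>
      rw [Subgroup.upperCentralSeries_zero]
      exact isClosed_singleton
    | succ i ih =>
      have : ((Subgroup.upperCentralSeries G (i + 1) : Subgroup G) : Set G) =
          ⋂ y : G, (fun x : G => ⁅x, y⁆) ⁻¹' (Subgroup.upperCentralSeries G i : Subgroup G) := by
        ext x
        simp only [SetLike.mem_coe, Subgroup.mem_upperCentralSeries_succ_iff, mem_iInter,
          mem_preimage]
      rw [this]
      refine isClosed_iInter fun y => ih.preimage ?_
      simp only [commutatorElement_def]
      fun_prop
  by_contra hcon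
  have hcount : ∀ i, Countable (Subgroup.upperCentralSeries G i) := by
    intro i
    induction i with
    | zero =>
      rw [Subgroup.upperCentralSeries_zero]
      infer_instance
    | succ i ih =>
      have hq : Countable ((Subgroup.upperCentralSeries G (i + 1)) ⧸
          (Subgroup.upperCentralSeries G i).subgroupOf (Subgroup.upperCentralSeries G (i + 1))) := by
        rw [← not_uncountable_iff]
        intro hun
        apply hcon
        refine splits_of_section _ _ inferInstance (hclosed i) (hclosed (i + 1)) ?_ hun
        intro g m hm
        have h1 := Subgroup.mem_upperCentralSeries_succ_iff.1 hm g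
        have h2 := (Subgroup.upperCentralSeries G i).inv_mem h1
        have h3 : ⁅m, g⁆⁻¹ = g * m * g⁻¹ * m⁻¹ := by
          rw [commutatorElement_def]; group
        rwa [h3] at h2
      have hs : Countable ((Subgroup.upperCentralSeries G i).subgroupOf
          (Subgroup.upperCentralSeries G (i + 1))) := by
        refine Function.Injective.countable
          (f := fun x => (⟨x.1.1, x.2⟩ : Subgroup.upperCentralSeries G i)) ?_
        intro x y hxy
        have := congrArg Subtype.val hxy
        exact Subtype.ext (Subtype.ext this)
      exact (Subgroup.groupEquivQuotientProdSubgroup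
        (s := (Subgroup.upperCentralSeries G i).subgroupOf
          (Subgroup.upperCentralSeries G (i + 1)))).countable_iff.2 inferInstance
  have h1 := hcount n
  rw [hn] at h1
  have h2 : Countable G := (Subgroup.topEquiv (G := G)).toEquiv.countable_iff.1 h1
  exact not_countable h2

/-- Q1 of MP_8b9ec4_lc for Polish groups with an uncountable closed central section, in particular
for uncountable nilpotent and for uncountable abelian Polish groups. -/
theorem result :
    (∀ (G : Type u) [Group G] [TopologicalSpace G] [IsTopologicalGroup G] [PolishSpace G]
      [MeasurableSpace G] [BorelSpace G] (N M : Subgroup G), N.Normal →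
      IsClosed (N : Set G) → IsClosed (M : Set G) → (∀ g : G, ∀ m ∈ M, g * m * g⁻¹ * m⁻¹ ∈ N) →
      Uncountable (M ⧸ N.subgroupOf M) → Splits G) ∧
    (∀ (G : Type u) [Group G] [TopologicalSpace G] [IsTopologicalGroup G] [PolishSpace G]
      [MeasurableSpace G] [BorelSpace G] [Uncountable G], Group.IsNilpotent G → Splits G) ∧
    (∀ (G : Type u) [CommGroup G] [TopologicalSpace G] [IsTopologicalGroup G] [PolishSpace G]
      [MeasurableSpace G] [BorelSpace G] [Uncountable G], Splits G) := by
  refine ⟨?_, ?_, ?_⟩
  · intro G _ _ _ _ _ _ N M hn hN hM hc hun
    exact splits_of_section N M hn hN hM hc hun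
  · intro G _ _ _ _ _ _ _ h
    exact splits_of_nilpotent h
  · intro G _ _ _ _ _ _ _
    exact splits_of_nilpotent inferInstance

end Pool.Agent.Results.MP_8b9ec4_lc.CentralSection
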