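import Pool.Agent.H170.NHN.GenN

/-!
# Partitions of Polish groups with a subgroup of controlled fusion into naively Haar null sets

Let `A` be a closed uncountable subgroup of the Polish group `G` such that, for all but countably
many `a ∈ A`, every conjugate of `a` which lies in `A` is one of countably many continuous functions
of `a`, and the centralizer of `a` centralizes `A`. Then `G` is the union of countably many pairwise
disjoint naively Haar null sets. This applies to `SL₂(F)` for every uncountable Polish field `F` and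
to its closed subgroups with uncountably many diagonal matrices, for example `SU(2)`, `SL₂(ℤ_p)`.

Proof. A Cantor set `K = ⋃ Pₙ` in `A` is chosen generically (Mycielski), such that a conjugate of a
difference `a b⁻¹` is a difference `c d⁻¹` only if `{c, d} = {a, b}`. Then two points lie on at most
two of the lines `g Pₙ h`, and two lines have at most two common points. So the incidence graph of
points and lines has an orientation with finite outdegrees, and this gives sets `Sₙ` which meet
every line `g Pₙ h` in a finite set.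
-/

set_option autoImplicit false

namespace Pool.Agent.Results.MP_8b9ec4_lc.FusionControlled

open Set MeasureTheory Function Pool.Agent.H170.NHN

universe u

/-- The family `F` of subsets of `G` is closed under taking subsets and under countable unions. -/
def IsSigmaIdeal {G : Type u} (F : Set (Set G)) : Prop :=
  (∀ A ∈ F, ∀ B, B ⊆ A → B ∈ F) ∧ ∀ S : ℕ → Set G, (∀ n, S n ∈ F) → (⋃ n, S n) ∈ F

/-- `G` has a partition into countably many naively Haar null sets, and the naively Haar null sets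
are not a σ-ideal. -/
def Splits (G : Type u) [Group G] [MeasurableSpace G] : Prop :=
  (∃ S : ℕ → Set G, (∀ n, NaivelyHaarNull (S n)) ∧ Pairwise (Disjoint on S) ∧
    ⋃ n, S n = univ) ∧ ¬ IsSigmaIdeal {X : Set G | NaivelyHaarNull X}

theorem not_univ (G : Type u) [Group G] [MeasurableSpace G] :
    ¬ NaivelyHaarNull (univ : Set G) := by
  rintro ⟨μ, hμ, h⟩
  have h1 := h 1 1
  simp only [one_mul, mul_one, image_id'] at h1
  rw [measure_univ] at h1
  exact one_ne_zero h1

theorem splits_of_fusion {G : Type u} [Group G] [TopologicalSpace G] [IsTopologicalGroup G]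
    [PolishSpace G] [MeasurableSpace G] [BorelSpace G] (A : Subgroup G)
    (hA : IsClosed (A : Set G)) (hunc : Uncountable A) (D : Set G) (hD : D.Countable)
    (γ : ℕ → A → A) (hγ : ∀ i, Continuous (γ i))
    (hfus : ∀ a : A, (a : G) ∉ D → ∀ z : G, z * a * z⁻¹ ∈ A → ∃ i, z * a * z⁻¹ = (γ i a : G))
    (hcen : ∀ a : A, (a : G) ∉ D → ∀ z : G, z * a * z⁻¹ = (a : G) → ∀ c : A, z * c = c * z) :
    Splits G := by
  obtain ⟨S, h1, h2, h3⟩ := coverF A hA hunc D hD γ hγ hfus hcen
  refine ⟨⟨S, h1, h2, h3⟩, fun h => ?_⟩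
  have := h.2 S h1
  rw [h3] at this
  exact not_univ G this

theorem splits_of_fusionN {G : Type u} [Group G] [TopologicalSpace G] [IsTopologicalGroup G]
    [PolishSpace G] [MeasurableSpace G] [BorelSpace G] (N M : Subgroup G) (hn : N.Normal)
    (hN : IsClosed (N : Set G)) (hM : IsClosed (M : Set G))
    (hun : Uncountable (M ⧸ N.subgroupOf M)) (D : Set G) (hD : D.Countable) (γ : ℕ → M → M)
    (hγ : ∀ i, Continuous (γ i))
    (hfus : ∀ a : M, (∀ e ∈ D, (a : G) * e⁻¹ ∉ N) → ∀ (z : G) (m : M),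
      z * a * z⁻¹ * (m : G)⁻¹ ∈ N → ∃ i, z * a * z⁻¹ * (γ i a : G)⁻¹ ∈ N)
    (hcen : ∀ a : M, (∀ e ∈ D, (a : G) * e⁻¹ ∉ N) → ∀ z : G,
      z * a * z⁻¹ * (a : G)⁻¹ ∈ N → ∀ c : M, z * c * z⁻¹ * (c : G)⁻¹ ∈ N) : Splits G := by
  obtain ⟨S, h1, h2, h3⟩ := coverFN N M hn hN hM hun D hD γ hγ hfus hcen
  refine ⟨⟨S, h1, h2, h3⟩, fun h => ?_⟩
  have := h.2 S h1
  rw [h3] at this
  exact not_univ G this

section SL2

/-- abbreviation for the group `SL₂(F)` -/
abbrev SL (F : Type u) [Field F] : Type u := Matrix.SpecialLinearGroup (Fin 2) F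

variable {F : Type u} [Field F]

theorem mulE (a b : SL F) (i j : Fin 2) :
    (a * b).1 i j = a.1 i 0 * b.1 0 j + a.1 i 1 * b.1 1 j := by
  change (a.1 * b.1) i j = _
  rw [Matrix.mul_apply, Fin.sum_univ_two]

theorem detE (a : SL F) : a.1 0 0 * a.1 1 1 - a.1 0 1 * a.1 1 0 = 1 := by
  have := a.2
  rw [Matrix.det_fin_two] at this
  exact this

theorem invE (a : SL F) : (a⁻¹).1 = !![a.1 1 1, -a.1 0 1; -a.1 1 0, a.1 0 0] := by
  rw [Matrix.SpecialLinearGroup.SL2_inv_expl]
  rfl

theorem extE {a b : SL F} (h1 : a.1 0 0 = b.1 0 0) (h2 : a.1 0 1 = b.1 0 1)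
    (h3 : a.1 1 0 = b.1 1 0) (h4 : a.1 1 1 = b.1 1 1) : a = b := by
  apply Subtype.ext
  ext i j
  fin_cases i <;> fin_cases j
  · exact h1
  · exact h2
  · exact h3
  · exact h4

/-- the diagonal subgroup of `SL₂(F)` -/
def diagS : Subgroup (SL F) where
  carrier := {g | g.1 0 1 = 0 ∧ g.1 1 0 = 0}
  mul_mem' := by
    rintro a b ⟨h1, h2⟩ ⟨h3, h4⟩
    refine ⟨?_, ?_⟩
    · rw [mulE, h1, h3]; ring
    · rw [mulE, h2, h4]; ring
  one_mem' := by
    refine ⟨?_, ?_⟩
    · change (1 : Matrix (Fin 2) (Fin 2) F) 0 1 = 0; simp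
    · change (1 : Matrix (Fin 2) (Fin 2) F) 1 0 = 0; simp
  inv_mem' := by
    rintro a ⟨h1, h2⟩
    refine ⟨?_, ?_⟩
    · rw [invE]; simp [h1]
    · rw [invE]; simp [h2]

theorem mem_diagS {g : SL F} : g ∈ diagS ↔ g.1 0 1 = 0 ∧ g.1 1 0 = 0 := Iff.rfl

theorem diag_det (a : SL F) (h : a ∈ diagS) : a.1 0 0 * a.1 1 1 = 1 := by
  have h1 := detE a
  rw [(mem_diagS.1 h).1, zero_mul, sub_zero] at h1
  exact h1

theorem entries {z a b : SL F} (ha : a ∈ diagS) (hb : b ∈ diagS)
    (h : z * a * z⁻¹ = b) : z.1 0 0 * a.1 0 0 = b.1 0 0 * z.1 0 0 ∧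
      z.1 0 1 * a.1 1 1 = b.1 0 0 * z.1 0 1 ∧
      z.1 1 0 * a.1 0 0 = b.1 1 1 * z.1 1 0 ∧ z.1 1 1 * a.1 1 1 = b.1 1 1 * z.1 1 1 := by
  have h1 : z * a = b * z := by rw [← h]; group
  have key : ∀ i j, (z * a).1 i j = (b * z).1 i j := fun i j => by rw [h1]
  have k00 := key 0 0
  have k01 := key 0 1
  have k10 := key 1 0
  have k11 := key 1 1
  obtain ⟨a1, a2⟩ := mem_diagS.1 ha
  obtain ⟨b1, b2⟩ := mem_diagS.1 hb
  rw [mulE, mulE] at k00 k01 k10 k11
  rw [a2, b1] at k00
  rw [a1, b1] at k01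
  rw [a2, b2] at k10
  rw [a1, b2] at k11
  refine ⟨?_, ?_, ?_, ?_⟩
  · linear_combination k00
  · linear_combination k01
  · linear_combination k10
  · linear_combination k11

variable [TopologicalSpace F] [IsTopologicalRing F] [PolishSpace F]

omit [PolishSpace F] in
theorem emb [T2Space F] : Topology.IsClosedEmbedding (fun g : SL F => g.1) := by
  refine ⟨Topology.IsEmbedding.subtypeVal, ?_⟩
  have h1 : IsClosed {M : Matrix (Fin 2) (Fin 2) F | M.det = 1} :=
    isClosed_eq (Continuous.matrix_det continuous_id) continuous_const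
  convert h1 using 1
  ext M
  constructor
  · rintro ⟨g, rfl⟩
    exact g.2
  · intro h
    exact ⟨⟨M, h⟩, rfl⟩

theorem sl2_polish : PolishSpace (SL F) := by
  have : PolishSpace (Matrix (Fin 2) (Fin 2) F) :=
    inferInstanceAs (PolishSpace (Fin 2 → Fin 2 → F))
  exact (emb (F := F)).polishSpace

omit [TopologicalSpace F] [IsTopologicalRing F] [PolishSpace F] in
theorem uncountable_diagS [Uncountable F] : Uncountable (diagS (F := F)) := by
  have h1 : Uncountable {t : F // t ≠ 0} := by
    rw [← not_countable_iff]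
    intro hc
    have h2 : ({t : F | t ≠ 0} : Set F).Countable := hc
    have h3 : (univ : Set F).Countable := by
      refine (h2.union (countable_singleton 0)).mono ?_
      intro t _
      by_cases ht : t = 0
      · exact Or.inr ht
      · exact Or.inl ht
    exact not_countable (countable_univ_iff.1 h3)
  have hinj : Injective (fun t : {t : F // t ≠ 0} =>
      (⟨⟨!![t.1, 0; 0, t.1⁻¹], by
        rw [Matrix.det_fin_two_of, mul_inv_cancel₀ t.2]; ring⟩, by
        constructor <;> rfl⟩ : diagS (F := F))) := by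
    intro s t hst
    have h2 := congrArg (fun g : diagS (F := F) => g.1.1 0 0) hst
    exact Subtype.ext h2
  exact hinj.uncountable

omit [TopologicalSpace F] [IsTopologicalRing F] [PolishSpace F] in
theorem countable_D : {a : SL F | a ∈ diagS ∧ a.1 0 0 = a.1 1 1}.Countable := by
  apply Set.Finite.countable
  have hfin : ({1, -1} : Set F).Finite := Set.toFinite _
  refine Set.Finite.of_finite_image (f := fun a : SL F => a.1 0 0) (hfin.subset ?_) ?_
  · rintro _ ⟨a, ⟨ha, hae⟩, rfl⟩
    have h1 := diag_det a ha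
    have h2 : a.1 0 0 * a.1 0 0 = 1 := by
      calc a.1 0 0 * a.1 0 0 = a.1 0 0 * a.1 1 1 := congrArg (a.1 0 0 * ·) hae
        _ = 1 := h1
    exact mul_self_eq_one_iff.1 h2
  · rintro a ⟨ha, hae⟩ b ⟨hb, hbe⟩ hab
    have hab' : a.1 0 0 = b.1 0 0 := hab
    exact extE hab' ((mem_diagS.1 ha).1.trans (mem_diagS.1 hb).1.symm)
      ((mem_diagS.1 ha).2.trans (mem_diagS.1 hb).2.symm) (hae.symm.trans (hab'.trans hbe))

omit [TopologicalSpace F] [IsTopologicalRing F] [PolishSpace F] in
theorem fusE {a z : SL F} (ha : a ∈ diagS) (hz : z * a * z⁻¹ ∈ diagS) :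
    z * a * z⁻¹ = a ∨ z * a * z⁻¹ = a⁻¹ := by
  obtain ⟨b, hb⟩ : ∃ b, z * a * z⁻¹ = b := ⟨_, rfl⟩
  rw [hb] at hz ⊢
  obtain ⟨k00, k01, k10, k11⟩ := entries ha hz hb
  have da := diag_det a ha
  have db := diag_det b hz
  have hdz := detE z
  obtain ⟨a1, a2⟩ := mem_diagS.1 ha
  obtain ⟨b1, b2⟩ := mem_diagS.1 hz
  by_cases h0 : z.1 0 0 = 0
  · right
    have h01 : z.1 0 1 ≠ 0 := by
      intro h; rw [h0, h] at hdz; simp at hdz
    have e1 : a.1 1 1 = b.1 0 0 := mul_left_cancel₀ h01 (by linear_combination k01)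
    have ha1 : a.1 1 1 ≠ 0 := by
      intro h; rw [h, mul_zero] at da; exact zero_ne_one da
    have e2 : a.1 0 0 = b.1 1 1 := by
      apply mul_left_cancel₀ ha1
      rw [← e1] at db
      linear_combination da - db
    refine extE ?_ ?_ ?_ ?_
    · rw [invE]; simpa using e1.symm
    · rw [invE]; simpa [a1] using b1
    · rw [invE]; simpa [a2] using b2
    · rw [invE]; simpa using e2.symm
  · left
    have e1 : a.1 0 0 = b.1 0 0 := mul_left_cancel₀ h0 (by linear_combination k00)
    have ha0 : a.1 0 0 ≠ 0 := by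
      intro h; rw [h, zero_mul] at da; exact zero_ne_one da
    have e2 : a.1 1 1 = b.1 1 1 := by
      apply mul_left_cancel₀ ha0
      rw [← e1] at db
      linear_combination da - db
    exact extE e1.symm (b1.trans a1.symm) (b2.trans a2.symm) e2.symm

omit [TopologicalSpace F] [IsTopologicalRing F] [PolishSpace F] in
theorem cenE {a z c : SL F} (ha : a ∈ diagS) (hne : a.1 0 0 ≠ a.1 1 1)
    (hz : z * a * z⁻¹ = a) (hc : c ∈ diagS) : z * c = c * z := by
  obtain ⟨_, k01, k10, _⟩ := entries ha ha hz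
  obtain ⟨c1, c2⟩ := mem_diagS.1 hc
  have z01 : z.1 0 1 = 0 := by
    by_contra h
    apply hne
    have : a.1 1 1 = a.1 0 0 := mul_left_cancel₀ h (by linear_combination k01)
    exact this.symm
  have z10 : z.1 1 0 = 0 := by
    by_contra h
    apply hne
    exact mul_left_cancel₀ h (by linear_combination k10)
  refine extE ?_ ?_ ?_ ?_
  · rw [mulE, mulE, z01, c1]; ring
  · rw [mulE, mulE, z01, c1]; ring
  · rw [mulE, mulE, z10, c2]; ring
  · rw [mulE, mulE, z10, c2]; ring

theorem closed_diagS : IsClosed ((diagS (F := F)) : Set (SL F)) := by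
  have hentry : ∀ i j : Fin 2, Continuous (fun g : SL F => g.1 i j) := by
    intro i j
    exact (continuous_apply_apply i j).comp (emb (F := F)).continuous
  exact (isClosed_eq (hentry 0 1) continuous_const).inter
    (isClosed_eq (hentry 1 0) continuous_const)

theorem splits_sub (H : Subgroup (SL F)) (hH : IsClosed (H : Set (SL F)))
    (hunc : ¬ {a : SL F | a ∈ H ∧ a ∈ diagS}.Countable)
    [MeasurableSpace H] [BorelSpace H] : Splits H := by
  have hpol : PolishSpace (SL F) := sl2_polish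
  have hpol' : PolishSpace H := hH.polishSpace
  refine splits_of_fusion ((diagS (F := F)).subgroupOf H) ?_ ?_
    {a | a.1 ∈ diagS ∧ a.1.1 0 0 = a.1.1 1 1} ?_ (fun i => if i = 0 then id else fun a => a⁻¹)
    ?_ ?_ ?_
  · exact (closed_diagS (F := F)).preimage continuous_subtype_val
  · rw [← not_countable_iff]
    intro hc
    apply hunc
    have h2 := countable_range (fun a : (diagS (F := F)).subgroupOf H => (a.1.1 : SL F))
    refine h2.mono ?_
    rintro a ⟨h3, h4⟩
    exact ⟨⟨⟨a, h3⟩, h4⟩, rfl⟩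
  · exact (countable_D (F := F)).preimage Subtype.val_injective
  · intro i
    by_cases hi : i = 0
    · simp only [hi, if_true]; exact continuous_id
    · simp only [hi, if_false]; exact continuous_inv
  · rintro ⟨a, ha⟩ _ z hz
    have ha' : a.1 ∈ diagS := ha
    have hz' : (z.1 * a.1 * z.1⁻¹ : SL F) ∈ diagS := hz
    rcases fusE ha' hz' with h | h
    · exact ⟨0, Subtype.ext h⟩
    · exact ⟨1, Subtype.ext h⟩
  · rintro ⟨a, ha⟩ hne z hz ⟨c, hc⟩
    have ha' : a.1 ∈ diagS := ha
    have hc' : c.1 ∈ diagS := hc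
    have hz' : z.1 * a.1 * z.1⁻¹ = a.1 := congrArg Subtype.val hz
    exact Subtype.ext (cenE ha' (fun h => hne ⟨ha', h⟩) hz' hc')

theorem splits_SL2 [Uncountable F] [MeasurableSpace (SL F)] [BorelSpace (SL F)] :
    Splits (SL F) := by
  have hpol : PolishSpace (SL F) := sl2_polish
  refine splits_of_fusion (diagS (F := F)) closed_diagS uncountable_diagS
    {a | a ∈ diagS ∧ a.1 0 0 = a.1 1 1} countable_D (fun i => if i = 0 then id else fun a => a⁻¹)
    ?_ ?_ ?_
  · intro i
    by_cases hi : i = 0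
    · simp only [hi, if_true]; exact continuous_id
    · simp only [hi, if_false]; exact continuous_inv
  · rintro ⟨a, ha⟩ _ z hz
    rcases fusE ha hz with h | h
    · exact ⟨0, h⟩
    · exact ⟨1, h⟩
  · rintro ⟨a, ha⟩ hne z hz ⟨c, hc⟩
    exact cenE ha (fun h => hne ⟨ha, h⟩) hz hc

theorem splits_onto [Uncountable F] {G : Type u} [Group G] [TopologicalSpace G]
    [IsTopologicalGroup G] [PolishSpace G] [MeasurableSpace G] [BorelSpace G] (π : G →* SL F)
    (hπ : Continuous π) (hsurj : Surjective π) : Splits G := by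
  have hpol : PolishSpace (SL F) := sl2_polish
  have hker : ∀ x, x ∈ π.ker ↔ π x = 1 := fun x => MonoidHom.mem_ker
  have hun : Uncountable ((diagS (F := F)).comap π ⧸
      π.ker.subgroupOf ((diagS (F := F)).comap π)) := by
    rw [← not_countable_iff]
    intro hc
    have hu := uncountable_diagS (F := F)
    rw [← not_countable_iff] at hu
    apply hu
    have hs : Surjective (fun x : (diagS (F := F)).comap π ⧸
        π.ker.subgroupOf ((diagS (F := F)).comap π) =>
        (⟨π (Quotient.out x).1, (Quotient.out x).2⟩ : diagS (F := F))) := by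
      rintro ⟨a, ha⟩
      obtain ⟨g, rfl⟩ := hsurj a
      refine ⟨QuotientGroup.mk ⟨g, ha⟩, ?_⟩
      apply Subtype.ext
      have h1 : (QuotientGroup.mk (Quotient.out (QuotientGroup.mk
          (⟨g, ha⟩ : (diagS (F := F)).comap π) : (diagS (F := F)).comap π ⧸
          π.ker.subgroupOf ((diagS (F := F)).comap π))) : (diagS (F := F)).comap π ⧸
          π.ker.subgroupOf ((diagS (F := F)).comap π)) = QuotientGroup.mk ⟨g, ha⟩ :=
        Quotient.out_eq _
      rw [QuotientGroup.eq, Subgroup.mem_subgroupOf, hker] at h1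
      have h2 : (π (Quotient.out (QuotientGroup.mk
          (⟨g, ha⟩ : (diagS (F := F)).comap π) : (diagS (F := F)).comap π ⧸
          π.ker.subgroupOf ((diagS (F := F)).comap π))).1)⁻¹ * π g = 1 := by
        rw [← map_inv, ← map_mul]
        exact h1
      exact inv_mul_eq_one.1 h2
    exact hs.countable
  refine splits_of_fusionN π.ker ((diagS (F := F)).comap π) inferInstance ?_ ?_ hun
    (surjInv hsurj '' {a | a ∈ diagS ∧ a.1 0 0 = a.1 1 1}) (countable_D.image _)
    (fun i => if i = 0 then id else fun a => a⁻¹) ?_ ?_ ?_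
  · exact isClosed_singleton.preimage hπ
  · exact (closed_diagS (F := F)).preimage hπ
  · intro i
    by_cases hi : i = 0
    · simp only [hi, if_true]; exact continuous_id
    · simp only [hi, if_false]; exact continuous_inv
  · rintro ⟨a, ha⟩ _ z ⟨m, hm⟩ hz
    have ha' : π a ∈ diagS := ha
    have hm' : π m ∈ diagS := hm
    have h1 : π z * π a * (π z)⁻¹ = π m := by
      have h2 := (hker _).1 hz
      simp only [map_mul, map_inv] at h2
      exact mul_inv_eq_one.1 h2
    rcases fusE ha' (by rw [h1]; exact hm') with h | h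
    · refine ⟨0, ?_⟩
      change z * a * z⁻¹ * a⁻¹ ∈ π.ker
      rw [hker]
      simp only [map_mul, map_inv]
      exact mul_inv_eq_one.2 h
    · refine ⟨1, ?_⟩
      change z * a * z⁻¹ * (a⁻¹)⁻¹ ∈ π.ker
      rw [hker]
      simp only [map_mul, map_inv]
      exact mul_inv_eq_one.2 h
  · rintro ⟨a, ha⟩ hne z hz ⟨c, hc⟩
    have ha' : π a ∈ diagS := ha
    have hc' : π c ∈ diagS := hc
    have h1 : π z * π a * (π z)⁻¹ = π a := by
      have h2 := (hker _).1 hz
      simp only [map_mul, map_inv] at h2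
      exact mul_inv_eq_one.1 h2
    have hne' : (π a).1 0 0 ≠ (π a).1 1 1 := by
      intro h
      apply hne (surjInv hsurj (π a)) ⟨π a, ⟨ha', h⟩, rfl⟩
      change a * (surjInv hsurj (π a))⁻¹ ∈ π.ker
      rw [hker, map_mul, map_inv, surjInv_eq hsurj]
      exact mul_inv_cancel _
    have h3 := cenE ha' hne' h1 hc'
    change z * c * z⁻¹ * c⁻¹ ∈ π.ker
    rw [hker]
    simp only [map_mul, map_inv]
    rw [h3]
    group

end SL2

/-- Q1 of MP_8b9ec4_lc for Polish groups with a closed uncountable subgroup of controlled fusion, in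
particular for those which map onto `SL₂(F)`, `F` an uncountable Polish field, and for the closed
subgroups of `SL₂(F)` with uncountably many diagonal matrices. -/
theorem result :
    (∀ (G : Type u) [Group G] [TopologicalSpace G] [IsTopologicalGroup G] [PolishSpace G]
      [MeasurableSpace G] [BorelSpace G] (N M : Subgroup G), N.Normal → IsClosed (N : Set G) →
      IsClosed (M : Set G) → Uncountable (M ⧸ N.subgroupOf M) →
      ∀ (D : Set G), D.Countable → ∀ (γ : ℕ → M → M), (∀ i, Continuous (γ i)) →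
      (∀ a : M, (∀ e ∈ D, (a : G) * e⁻¹ ∉ N) → ∀ (z : G) (m : M),
        z * a * z⁻¹ * (m : G)⁻¹ ∈ N → ∃ i, z * a * z⁻¹ * (γ i a : G)⁻¹ ∈ N) →
      (∀ a : M, (∀ e ∈ D, (a : G) * e⁻¹ ∉ N) → ∀ z : G,
        z * a * z⁻¹ * (a : G)⁻¹ ∈ N → ∀ c : M, z * c * z⁻¹ * (c : G)⁻¹ ∈ N) →
      Splits G) ∧
    (∀ (F : Type u) [Field F] [TopologicalSpace F] [IsTopologicalRing F] [PolishSpace F]
      [Uncountable F] (G : Type u) [Group G] [TopologicalSpace G] [IsTopologicalGroup G]
      [PolishSpace G] [MeasurableSpace G] [BorelSpace G]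
      (π : G →* Matrix.SpecialLinearGroup (Fin 2) F), Continuous π → Surjective π → Splits G) ∧
    (∀ (F : Type u) [Field F] [TopologicalSpace F] [IsTopologicalRing F] [PolishSpace F]
      (H : Subgroup (Matrix.SpecialLinearGroup (Fin 2) F)) [MeasurableSpace H] [BorelSpace H],
      IsClosed (H : Set (Matrix.SpecialLinearGroup (Fin 2) F)) →
      ¬ {a : Matrix.SpecialLinearGroup (Fin 2) F | a ∈ H ∧ a.1 0 1 = 0 ∧ a.1 1 0 = 0}.Countable →
      Splits H) := by
  refine ⟨?_, ?_, ?_⟩
  · intro G _ _ _ _ _ _ N M h0 h1 h2 h3 D h4 γ h5 h6 h7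
    exact splits_of_fusionN N M h0 h1 h2 h3 D h4 γ h5 h6 h7
  · intro F _ _ _ _ _ G _ _ _ _ _ _ π h1 h2
    exact splits_onto π h1 h2
  · intro F _ _ _ _ H _ _ h1 h2
    exact splits_sub H h1 h2

end Pool.Agent.Results.MP_8b9ec4_lc.FusionControlled
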