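import Pool.Agent.H170.NHN.Cover

/-!
# Partitions of nonabelian Polish groups into countably many naively Haar null sets, in ZFC

Let `N₀, N₁, …` be uncountable closed normal subgroups of the Polish group `G` with countable
pairwise intersections. Then `G` is the union of countably many pairwise disjoint naively Haar null
sets. In particular this holds for the product of a sequence of arbitrary uncountable Polish groups.

Proof. In the incidence graph between the points of `G` and the cosets of the groups `Nₙ` two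
vertices have countably many common neighbours. So the graph has an orientation with finite
outdegrees, and a colouring of the points as for `CentralSection` gives sets `Sₙ` which meet every
coset of `Nₙ` in a finite set. A continuous measure on `Nₙ` is a witness for `Sₙ`.
-/

set_option autoImplicit false

namespace Pool.Agent.Results.MP_8b9ec4_lc.NormalFamilies

open Set MeasureTheory Function Pool.Agent.H170.NHN

universe u

/-- The family `F` of subsets of `G` is closed under taking subsets and under countable unions. -/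
def IsSigmaIdeal {G : Type u} (F : Set (Set G)) : Prop :=
  (∀ A ∈ F, ∀ B, B ⊆ A → B ∈ F) ∧ ∀ S : ℕ → Set G, (∀ n, S n ∈ F) → (⋃ n, S n) ∈ F

/-- `G` has a partition into countably many naively Haar null sets, and the naively Haar null sets
are not a σ-ideal. -/
def Splits (G : Type u) [Group G] [MeasurableSpace G] : Prop :=
  (∃ S : ℕ → Set G, (∀ n, NaivelyHaarNull (S n)) ∧ Pairwise (Disjoint on S) ∧
    ⋃ n, S n = univ) ∧ ¬ IsSigmaIdeal {X : Set G | NaivelyHaarNull X}

theorem not_univ (G : Type u) [Group G] [MeasurableSpace G] :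
    ¬ NaivelyHaarNull (univ : Set G) := by
  rintro ⟨μ, hμ, h⟩
  have h1 := h 1 1
  simp only [one_mul, mul_one, image_id'] at h1
  rw [measure_univ] at h1
  exact one_ne_zero h1

section graph

variable {G : Type u} [Group G] (N : ℕ → Subgroup G)

/-- the incidence graph of points and cosets -/
def CA : (G ⊕ (Σ n, G ⧸ N n)) → (G ⊕ (Σ n, G ⧸ N n)) → Prop
  | .inl x, .inr l => (QuotientGroup.mk x : G ⧸ N l.1) = l.2
  | .inr l, .inl x => (QuotientGroup.mk x : G ⧸ N l.1) = l.2
  | _, _ => False

theorem CA_symm (u v : G ⊕ (Σ n, G ⧸ N n)) (h : CA N u v) : CA N v u := by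
  rcases u with x | l <;> rcases v with y | m <;> exact h

theorem CA_common (hN : ∀ n m, n ≠ m → Countable (N n ⊓ N m : Subgroup G))
    (u v : G ⊕ (Σ n, G ⧸ N n)) (huv : u ≠ v) : {w | CA N u w ∧ CA N v w}.Countable := by
  rcases u with x | ⟨n, c⟩ <;> rcases v with y | ⟨m, d⟩
  · refine (countable_range (fun n : ℕ =>
      (Sum.inr ⟨n, QuotientGroup.mk x⟩ : G ⊕ (Σ n, G ⧸ N n)))).mono ?_
    rintro w ⟨h1, h2⟩
    rcases w with _ | ⟨n, c⟩
    · exact h1.elim
    · refine ⟨n, ?_⟩
      have h3 : (QuotientGroup.mk x : G ⧸ N n) = c := h1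
      rw [← h3]
  · refine (countable_empty).mono ?_
    rintro (w | w) ⟨h1, h2⟩
    · exact h1
    · exact h2
  · refine (countable_empty).mono ?_
    rintro (w | w) ⟨h1, h2⟩
    · exact h2
    · exact h1
  · by_cases hnm : n = m
    · subst hnm
      refine (countable_empty).mono ?_
      rintro w ⟨h1, h2⟩
      rcases w with x | _
      · have h3 : (QuotientGroup.mk x : G ⧸ N n) = c := h1
        have h4 : (QuotientGroup.mk x : G ⧸ N n) = d := h2
        exact huv (by rw [← h3, ← h4])
      · exact h1.elim
    · by_cases hne : ∃ x0 : G, (QuotientGroup.mk x0 : G ⧸ N n) = c ∧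
        (QuotientGroup.mk x0 : G ⧸ N m) = d
      · obtain ⟨x0, h1, h2⟩ := hne
        have := hN n m hnm
        refine (countable_range (fun z : (N n ⊓ N m : Subgroup G) =>
          (Sum.inl (x0 * (z : G)) : G ⊕ (Σ n, G ⧸ N n)))).mono ?_
        rintro w ⟨h3, h4⟩
        rcases w with x | _
        · have h3' : (QuotientGroup.mk x : G ⧸ N n) = c := h3
          have h4' : (QuotientGroup.mk x : G ⧸ N m) = d := h4
          refine ⟨⟨x0⁻¹ * x, ?_, ?_⟩, ?_⟩
          · exact QuotientGroup.eq.1 (h1.trans h3'.symm)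
          · exact QuotientGroup.eq.1 (h2.trans h4'.symm)
          · simp
        · exact h3.elim
      · refine (countable_empty).mono ?_
        rintro w ⟨h3, h4⟩
        rcases w with x | _
        · exact hne ⟨x, h3, h4⟩
        · exact h3.elim

theorem exists_colour (hN : ∀ n m, n ≠ m → Countable (N n ⊓ N m : Subgroup G)) :
    ∃ c : G → ℕ, ∀ (n : ℕ) (t : G ⧸ N n), {x | c x = n ∧ QuotientGroup.mk x = t}.Finite := by
  obtain ⟨O, hO1, hO2⟩ := good_of_countable_common (CA N) (CA_symm N) (CA_common N hN)
  have hK : ∀ x : G, ∃ n : ℕ, ¬ ∃ t : G ⧸ N n,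
      CA N (.inl x) (.inr ⟨n, t⟩) ∧ O (.inl x) (.inr ⟨n, t⟩) := by
    intro x
    have hfin : {n : ℕ | ∃ t : G ⧸ N n,
        CA N (.inl x) (.inr ⟨n, t⟩) ∧ O (.inl x) (.inr ⟨n, t⟩)}.Finite := by
      refine ((hO2 (.inl x)).image (fun v => Sum.elim (fun _ => 0) (fun l => l.1) v)).subset ?_
      rintro n ⟨t, h1, h2⟩
      exact ⟨.inr ⟨n, t⟩, ⟨h1, h2⟩, rfl⟩
    exact hfin.exists_notMem
  choose c hcx using hK
  refine ⟨c, fun n t => ?_⟩
  refine ((hO2 (.inr ⟨n, t⟩)).preimage (Sum.inl_injective.injOn)).subset ?_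
  rintro x ⟨rfl, hb⟩
  have hA : CA N (.inl x) (.inr ⟨c x, t⟩) := hb
  rcases hO1 _ _ hA with h | h
  · exact (hcx x ⟨t, hA, h⟩).elim
  · exact ⟨hA, h⟩

end graph

theorem splits_of_family {G : Type u} [Group G] [TopologicalSpace G] [IsTopologicalGroup G]
    [PolishSpace G] [MeasurableSpace G] [BorelSpace G] (N : ℕ → Subgroup G)
    (hnormal : ∀ n, (N n).Normal) (hclosed : ∀ n, IsClosed (N n : Set G))
    (hunc : ∀ n, Uncountable (N n)) (hN : ∀ n m, n ≠ m → Countable (N n ⊓ N m : Subgroup G)) :
    Splits G := by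
  obtain ⟨c, hc⟩ := exists_colour N hN
  have hcov : ∃ S : ℕ → Set G, (∀ n, NaivelyHaarNull (S n)) ∧ Pairwise (Disjoint on S) ∧
      ⋃ n, S n = univ := by
    refine ⟨fun n => {x | c x = n}, ?_, ?_, ?_⟩
    · intro n
      have hu := hunc n
      have hnn := hnormal n
      have : PolishSpace (N n) := (hclosed n).polishSpace
      let e : ℝ ≃ᵐ (N n) := PolishSpace.measurableEquivOfNotCountable
        (not_countable_iff.2 inferInstance) (not_countable_iff.2 inferInstance)
      let f : ℝ → G := fun r => (e r : G)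
      have hfm : Measurable f := measurable_subtype_coe.comp e.measurable
      have hfi : Injective f := fun r s hrs => e.injective (Subtype.ext hrs)
      have hemb : MeasurableEmbedding f := hfm.measurableEmbedding hfi
      have hprob : IsProbabilityMeasure (volume.restrict (Icc (0 : ℝ) 1)) := ⟨by simp⟩
      refine ⟨(volume.restrict (Icc (0 : ℝ) 1)).map f,
        Measure.isProbabilityMeasure_map hfm.aemeasurable, fun g k => ?_⟩
      rw [hemb.map_apply]
      apply Set.Countable.measure_zero
      apply Set.Finite.countable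
      have hφ : Injective (fun r : ℝ => g⁻¹ * f r * k⁻¹) := by
        intro r s hrs
        exact hfi (mul_left_cancel (mul_right_cancel hrs))
      refine ((hc n (QuotientGroup.mk (g⁻¹ * k⁻¹))).preimage hφ.injOn).subset ?_
      rintro r ⟨x, hx, hxr⟩
      have hxr' : g * x * k = f r := hxr
      have h1 : g⁻¹ * f r * k⁻¹ = x := by rw [← hxr']; group
      change c (g⁻¹ * f r * k⁻¹) = n ∧ (QuotientGroup.mk (g⁻¹ * f r * k⁻¹) : G ⧸ N n) = _
      refine ⟨by rw [h1]; exact hx, ?_⟩
      rw [QuotientGroup.eq]
      have h2 : (g⁻¹ * f r * k⁻¹)⁻¹ * (g⁻¹ * k⁻¹) = k * (f r)⁻¹ * k⁻¹ := by group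
      rw [h2]
      exact hnn.conj_mem _ ((N n).inv_mem (e r).2) k
    · intro n m hnm
      rw [Function.onFun, Set.disjoint_left]
      rintro x hx hx'
      exact hnm (hx.symm.trans hx')
    · exact eq_univ_of_forall fun x => mem_iUnion.2 ⟨c x, rfl⟩
  refine ⟨hcov, fun h => ?_⟩
  obtain ⟨S, h1, _, h3⟩ := hcov
  have := h.2 S h1
  rw [h3] at this
  exact not_univ G this

theorem splits_of_family' {G : Type u} [Group G] [TopologicalSpace G] [IsTopologicalGroup G]
    [PolishSpace G] [MeasurableSpace G] [BorelSpace G] (N : Subgroup G) [N.Normal]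
    (hNc : IsClosed (N : Set G)) (M : ℕ → Subgroup G)
    (hnormal : ∀ n, (M n).Normal) (hclosed : ∀ n, IsClosed (M n : Set G))
    (hunc : ∀ n, Uncountable (M n ⧸ N.subgroupOf (M n)))
    (hN : ∀ n m, n ≠ m → Countable
      ((M n).map (QuotientGroup.mk' N) ⊓ (M m).map (QuotientGroup.mk' N) : Subgroup (G ⧸ N))) :
    Splits G := by
  let q : G →* G ⧸ N := QuotientGroup.mk' N
  have hq : ∀ x : G, q x = 1 ↔ x ∈ N := fun x => QuotientGroup.eq_one_iff x
  obtain ⟨c, hc⟩ := exists_colour (fun n => (M n).map q) hN
  have hcov : ∃ S : ℕ → Set G, (∀ n, NaivelyHaarNull (S n)) ∧ Pairwise (Disjoint on S) ∧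
      ⋃ n, S n = univ := by
    refine ⟨fun n => {x | c (q x) = n}, ?_, ?_, ?_⟩
    · intro n
      obtain ⟨h, hcont, hgen⟩ := exists_generic N (M n) hNc (hclosed n) (hunc n)
      have hnn : ((M n).map q).Normal := (hnormal n).map q (QuotientGroup.mk'_surjective N)
      have hunc' : Uncountable (ℕ → Bool) := by
        rw [← Cardinal.aleph0_lt_mk_iff]
        simpa using Cardinal.cantor Cardinal.aleph0
      let e : ℝ ≃ᵐ (ℕ → Bool) := PolishSpace.measurableEquivOfNotCountable
        (not_countable_iff.2 inferInstance) (not_countable_iff.2 inferInstance)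
      have hQ2 : ∀ a b : ℕ → Bool, a ≠ b → q (h a) ≠ q (h b) := by
        intro a b h1 he
        classical
        obtain ⟨c, hc⟩ := Infinite.exists_notMem_finset ({a, b} : Finset (ℕ → Bool))
        simp only [Finset.mem_insert, Finset.mem_singleton, not_or] at hc
        obtain ⟨d, hd⟩ := Infinite.exists_notMem_finset ({a, b, c} : Finset (ℕ → Bool))
        simp only [Finset.mem_insert, Finset.mem_singleton, not_or] at hd
        refine (hgen _ (inj4 h1 (Ne.symm hc.1) (Ne.symm hd.1) (Ne.symm hc.2) (Ne.symm hd.2.1)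
          (Ne.symm hd.2.2))).2.2 ?_
        rw [← hq]
        simp only [map_mul, map_inv]
        rw [mul_inv_eq_one]
        exact he
      let f : ℝ → G := fun r => (h (e r) : G)
      have hfm : Measurable f :=
        (continuous_subtype_val.comp hcont).measurable.comp e.measurable
      have hqf : Injective (fun r => q (f r)) := by
        intro r s hrs
        by_contra hne
        exact hQ2 _ _ (e.injective.ne hne) hrs
      have hfi : Injective f := fun r s hrs => hqf (congrArg q hrs)
      have hemb : MeasurableEmbedding f := hfm.measurableEmbedding hfi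
      have hprob : IsProbabilityMeasure (volume.restrict (Icc (0 : ℝ) 1)) := ⟨by simp⟩
      refine ⟨(volume.restrict (Icc (0 : ℝ) 1)).map f,
        Measure.isProbabilityMeasure_map hfm.aemeasurable, fun g k => ?_⟩
      rw [hemb.map_apply]
      apply Set.Countable.measure_zero
      apply Set.Finite.countable
      have hφ : Injective (fun r : ℝ => (q g)⁻¹ * q (f r) * (q k)⁻¹) := by
        intro r s hrs
        exact hqf (mul_left_cancel (mul_right_cancel hrs))
      refine ((hc n (QuotientGroup.mk ((q g)⁻¹ * (q k)⁻¹))).preimage hφ.injOn).subset ?_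
      rintro r ⟨x, hx, hxr⟩
      have hxr' : q g * q x * q k = q (f r) := by
        have := congrArg q hxr
        simpa only [map_mul] using this
      have h1 : (q g)⁻¹ * q (f r) * (q k)⁻¹ = q x := by rw [← hxr']; group
      change c ((q g)⁻¹ * q (f r) * (q k)⁻¹) = n ∧
        (QuotientGroup.mk ((q g)⁻¹ * q (f r) * (q k)⁻¹) : (G ⧸ N) ⧸ (M n).map q) = _
      refine ⟨by rw [h1]; exact hx, ?_⟩
      rw [QuotientGroup.eq]
      have h2 : ((q g)⁻¹ * q (f r) * (q k)⁻¹)⁻¹ * ((q g)⁻¹ * (q k)⁻¹) =
          q k * (q (f r))⁻¹ * (q k)⁻¹ := by group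
      rw [h2]
      exact hnn.conj_mem _ (((M n).map q).inv_mem
        (Subgroup.mem_map_of_mem q (h (e r)).2)) (q k)
    · intro n m hnm
      rw [Function.onFun, Set.disjoint_left]
      rintro x hx hx'
      exact hnm (hx.symm.trans hx')
    · exact eq_univ_of_forall fun x => mem_iUnion.2 ⟨c (q x), rfl⟩
  refine ⟨hcov, fun h => ?_⟩
  obtain ⟨S, h1, _, h3⟩ := hcov
  have := h.2 S h1
  rw [h3] at this
  exact not_univ G this

/-- Q1 of MP_8b9ec4_lc for Polish groups with a sequence of uncountable closed normal subgroups with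
countable pairwise intersections, in particular for the product of a sequence of uncountable Polish
groups. -/
theorem result :
    (∀ (G : Type u) [Group G] [TopologicalSpace G] [IsTopologicalGroup G] [PolishSpace G]
      [MeasurableSpace G] [BorelSpace G] (N : ℕ → Subgroup G), (∀ n, (N n).Normal) →
      (∀ n, IsClosed (N n : Set G)) → (∀ n, Uncountable (N n)) →
      (∀ n m, n ≠ m → Countable (N n ⊓ N m : Subgroup G)) → Splits G) ∧
    (∀ (G : Type u) [Group G] [TopologicalSpace G] [IsTopologicalGroup G] [PolishSpace G]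
      [MeasurableSpace G] [BorelSpace G] (N : Subgroup G) [N.Normal] (M : ℕ → Subgroup G),
      IsClosed (N : Set G) → (∀ n, (M n).Normal) → (∀ n, IsClosed (M n : Set G)) →
      (∀ n, Uncountable (M n ⧸ N.subgroupOf (M n))) →
      (∀ n m, n ≠ m → Countable ((M n).map (QuotientGroup.mk' N) ⊓
        (M m).map (QuotientGroup.mk' N) : Subgroup (G ⧸ N))) → Splits G) ∧
    (∀ (H : ℕ → Type u) [∀ n, Group (H n)] [∀ n, TopologicalSpace (H n)]
      [∀ n, IsTopologicalGroup (H n)] [∀ n, PolishSpace (H n)] [∀ n, Uncountable (H n)]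
      [∀ n, MeasurableSpace (H n)] [∀ n, BorelSpace (H n)], Splits (∀ n, H n)) := by
  refine ⟨?_, ?_, ?_⟩
  · intro G _ _ _ _ _ _ N h1 h2 h3 h4
    exact splits_of_family N h1 h2 h3 h4
  · intro G _ _ _ _ _ _ N _ M h0 h1 h2 h3 h4
    exact splits_of_family' N h0 M h1 h2 h3 h4
  · intro H _ _ _ _ _ _ _
    classical
    let N : ℕ → Subgroup (∀ n, H n) := fun n =>
      { carrier := {x | ∀ m, m ≠ n → x m = 1}
        mul_mem' := by
          intro x y hx hy m hm
          rw [Pi.mul_apply, hx m hm, hy m hm, one_mul]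
        one_mem' := fun m _ => rfl
        inv_mem' := by
          intro x hx m hm
          rw [Pi.inv_apply, hx m hm, inv_one] }
    have hmem : ∀ n x, x ∈ N n ↔ ∀ m, m ≠ n → x m = 1 := fun n x => Iff.rfl
    refine splits_of_family N ?_ ?_ ?_ ?_
    · intro n
      refine ⟨fun x hx g m hm => ?_⟩
      rw [Pi.mul_apply, Pi.mul_apply, Pi.inv_apply, hx m hm, mul_one, mul_inv_cancel]
    · intro n
      have : (N n : Set (∀ n, H n)) = ⋂ m, ⋂ (_ : m ≠ n), {x | x m = 1} := by
        ext x
        simp only [SetLike.mem_coe, hmem, mem_iInter, mem_ofPred_eq]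
      rw [this]
      exact isClosed_iInter fun m => isClosed_iInter fun _ =>
        isClosed_singleton.preimage (continuous_apply m)
    · intro n
      have hinj : Injective (fun h : H n => (⟨Pi.mulSingle n h, by
          intro m hm
          exact Pi.mulSingle_eq_of_ne hm h⟩ : N n)) := by
        intro a b hab
        exact Pi.mulSingle_injective n (congrArg Subtype.val hab)
      exact hinj.uncountable
    · intro n m hnm
      have : Subsingleton (N n ⊓ N m : Subgroup (∀ n, H n)) := by
        refine ⟨fun x y => Subtype.ext (funext fun k => ?_)⟩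
        have hx1 := x.2.1
        have hx2 := x.2.2
        have hy1 := y.2.1
        have hy2 := y.2.2
        by_cases hk : k = n
        · have hkm : k ≠ m := fun h => hnm (hk.symm.trans h)
          rw [hx2 k hkm, hy2 k hkm]
        · rw [hx1 k hk, hy1 k hk]
      infer_instance

end Pool.Agent.Results.MP_8b9ec4_lc.NormalFamilies
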