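import Pool.Agent.H170.NHN.Two

/-!
# Partitions into finitely many naively Haar null sets and sections of subsets of the cube

A Polish group which is the union of `k` naively Haar null sets exists if and only if the cube
`[0, 1]ᵏ` is a union of `k` sets `Eᵢ` such that every section of `Eᵢ` in direction `i` is a Lebesgue
null set, and then `ℝᵏ` is such a group. For `k = 2` this says that some Polish group is the union
of two disjoint naively Haar null sets if and only if there is a subset of the square whose vertical
sections are null sets and whose horizontal sections have null complements. If all sets of reals of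
size less than the continuum are null sets (for example under CH), then every Polish group with an
uncountable closed central section, for example every uncountable abelian one, is such a union.
-/

set_option autoImplicit false

namespace Pool.Agent.Results.MP_8b9ec4_lc.TwoPieces

open Set MeasureTheory Function Pool.Agent.H170.NHN unitInterval

universe u

/-- `G` is the union of `k` naively Haar null sets -/
def Cov (k : ℕ) (G : Type u) [Group G] [MeasurableSpace G] : Prop :=
  ∃ S : Fin k → Set G, (∀ i, NaivelyHaarNull (S i)) ∧ ⋃ i, S i = univ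

/-- `[0, 1]ᵏ` is the union of `k` sets `E i` whose sections in direction `i` are null sets -/
def Fub (k : ℕ) : Prop :=
  ∃ E : Fin k → Set (Fin k → I), (⋃ i, E i = univ) ∧
    ∀ i (x : Fin k → I), volume {t : I | Function.update x i t ∈ E i} = 0

/-- a subset of the square with null vertical sections and conull horizontal sections -/
def Fub2 : Prop :=
  ∃ E : Set (I × I), (∀ x, volume {y : I | (x, y) ∈ E} = 0) ∧
    ∀ y, volume {x : I | (x, y) ∉ E} = 0

theorem prod_ofFn_update {G : Type u} [Monoid G] {k : ℕ} (f : Fin k → G) (i : Fin k) (a : G) :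
    (List.ofFn (Function.update f i a)).prod =
      ((List.ofFn f).take i).prod * a * ((List.ofFn f).drop (i + 1)).prod := by
  have h : List.ofFn (Function.update f i a) = (List.ofFn f).set i a := by
    apply List.ext_getElem
    · simp
    · intro n h1 h2
      rw [List.getElem_set, List.getElem_ofFn, List.getElem_ofFn]
      by_cases hn : (i : ℕ) = n
      · subst hn
        simp
      · rw [if_neg hn, Function.update_of_ne]
        intro h
        exact hn (congrArg Fin.val h).symm
  rw [h, List.prod_set]
  simp

theorem fub_of_cov {k : ℕ} {G : Type u} [Group G] [TopologicalSpace G] [IsTopologicalGroup G]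
    [PolishSpace G] [MeasurableSpace G] [BorelSpace G] (h : Cov k G) : Fub k := by
  obtain ⟨S, hS, hU⟩ := h
  choose μ hμ hnull using hS
  have hex : ∀ i, ∃ f : I → G, Measurable f ∧ volume.map f = μ i := by
    intro i
    have := hμ i
    exact (μ i).exists_measurable_map_eq
  choose φ hφm hφ using hex
  refine ⟨fun i => {x | (List.ofFn fun j => φ j (x j)).prod ∈ S i}, ?_, ?_⟩
  · refine eq_univ_of_forall fun x => ?_
    have h1 : (List.ofFn fun j => φ j (x j)).prod ∈ ⋃ i, S i := by rw [hU]; trivial
    obtain ⟨i, hi⟩ := mem_iUnion.1 h1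
    exact mem_iUnion.2 ⟨i, hi⟩
  · intro i x
    set g := ((List.ofFn fun j => φ j (x j)).take i).prod with hg
    set h := ((List.ofFn fun j => φ j (x j)).drop (i + 1)).prod with hh
    have hprod : ∀ t : I, (List.ofFn fun j => φ j (Function.update x i t j)).prod =
        g * φ i t * h := by
      intro t
      rw [hg, hh, ← prod_ofFn_update]
      congr 2
      funext j
      exact Function.apply_update (fun j => φ j) x i t j
    have h1 : (μ i) ((fun z => g⁻¹ * z * h⁻¹) '' S i) = 0 := hnull i g⁻¹ h⁻¹
    rw [← hφ i] at h1
    refine measure_mono_null ?_ (Measure.preimage_null_of_map_null (hφm i).aemeasurable h1)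
    intro t ht
    have ht' : (List.ofFn fun j => φ j (Function.update x i t j)).prod ∈ S i := ht
    rw [hprod] at ht'
    refine ⟨_, ht', ?_⟩
    group

/-- the fractional part as a map to the unit interval -/
noncomputable def frac (t : ℝ) : I := ⟨Int.fract t, Int.fract_nonneg t, (Int.fract_lt_one t).le⟩

theorem frac_null {A : Set I} (hA : volume A = 0) : volume (frac ⁻¹' A) = 0 := by
  have h1 : volume (Subtype.val '' A) = 0 := by
    rw [volume_image_subtype_coe measurableSet_Icc]
    exact hA
  have h2 : frac ⁻¹' A ⊆ ⋃ n : ℤ, (fun t : ℝ => t + (n : ℝ)) '' (Subtype.val '' A) := by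
    intro t ht
    refine mem_iUnion.2 ⟨⌊t⌋, Int.fract t, ⟨frac t, ht, rfl⟩, ?_⟩
    exact Int.fract_add_floor t
  refine measure_mono_null h2 ?_
  rw [measure_iUnion_null_iff]
  intro n
  rw [image_add_right, measure_preimage_add_right]
  exact h1

theorem nhn_mono {G : Type u} [Group G] [MeasurableSpace G] {A B : Set G} (hAB : A ⊆ B)
    (hB : NaivelyHaarNull B) : NaivelyHaarNull A := by
  obtain ⟨μ, hμ, h⟩ := hB
  exact ⟨μ, hμ, fun g k => measure_mono_null (image_mono hAB) (h g k)⟩

theorem cov_of_fub {k : ℕ} (h : Fub k) [MeasurableSpace (Multiplicative (Fin k → ℝ))]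
    [BorelSpace (Multiplicative (Fin k → ℝ))] : Cov k (Multiplicative (Fin k → ℝ)) := by
  obtain ⟨E, hE, hnull⟩ := h
  refine ⟨fun i => {z | (fun j => frac (Multiplicative.toAdd z j)) ∈ E i}, ?_, ?_⟩
  · intro i
    let f : ℝ → Multiplicative (Fin k → ℝ) := fun t => Multiplicative.ofAdd (Pi.single i t)
    have hfc : Continuous f := by
      change Continuous (fun t : ℝ => Multiplicative.ofAdd (Pi.single (M := fun _ => ℝ) i t))
      exact continuous_ofAdd.comp (continuous_single (A := fun _ => ℝ) i)
    have hfi : Injective f := by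
      intro s t hst
      exact Pi.single_injective (M := fun _ => ℝ) i (Multiplicative.ofAdd.injective hst)
    have hemb : MeasurableEmbedding f := hfc.measurable.measurableEmbedding hfi
    have hprob : IsProbabilityMeasure (volume.restrict (Icc (0 : ℝ) 1)) := ⟨by simp⟩
    refine ⟨(volume.restrict (Icc (0 : ℝ) 1)).map f,
      Measure.isProbabilityMeasure_map hfc.measurable.aemeasurable, fun g h => ?_⟩
    rw [hemb.map_apply]
    refine Measure.absolutelyContinuous_of_le Measure.restrict_le_self ?_
    let w : Fin k → ℝ := - Multiplicative.toAdd g - Multiplicative.toAdd h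
    have h1 : volume (frac ⁻¹' {s : I | Function.update (fun j => frac (w j)) i s ∈ E i}) = 0 :=
      frac_null (hnull i _)
    have h2 : volume ((fun t : ℝ => t + w i) ⁻¹'
        (frac ⁻¹' {s : I | Function.update (fun j => frac (w j)) i s ∈ E i})) = 0 := by
      rw [measure_preimage_add_right]
      exact h1
    refine measure_mono_null ?_ h2
    rintro t ⟨z, hz, hzt⟩
    have hz' : Multiplicative.toAdd z = Pi.single i t + w := by
      have h3 := congrArg Multiplicative.toAdd hzt
      simp only [toAdd_mul, f, toAdd_ofAdd] at h3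
      rw [← h3]
      simp only [w]
      abel
    change Function.update (fun j => frac (w j)) i (frac (t + w i)) ∈ E i
    have h4 : Function.update (fun j => frac (w j)) i (frac (t + w i)) =
        fun j => frac (Multiplicative.toAdd z j) := by
      funext j
      rw [hz']
      by_cases hj : j = i
      · subst hj
        simp
      · rw [Function.update_of_ne hj, Pi.add_apply, Pi.single_eq_of_ne hj, zero_add]
    rw [h4]
    exact hz
  · refine eq_univ_of_forall fun z => ?_
    have h1 : (fun j => frac (Multiplicative.toAdd z j)) ∈ ⋃ i, E i := by rw [hE]; trivial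
    obtain ⟨i, hi⟩ := mem_iUnion.1 h1
    exact mem_iUnion.2 ⟨i, hi⟩

theorem fub2_of_fub (h : Fub 2) : Fub2 := by
  obtain ⟨E, hE, hnull⟩ := h
  have e1 : ∀ x y : I, Function.update ![x, y] 0 = fun t : I => ![t, y] := by
    intro x y; funext t j; fin_cases j <;> simp
  have e2 : ∀ x y : I, Function.update ![x, y] 1 = fun t : I => ![x, t] := by
    intro x y; funext t j; fin_cases j <;> simp
  refine ⟨{p | ![p.1, p.2] ∈ E 1}, fun x => ?_, fun y => ?_⟩
  · have := hnull 1 ![x, x]
    rw [e2] at this
    exact this
  · have := hnull 0 ![y, y]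
    rw [e1] at this
    refine measure_mono_null ?_ this
    intro x hx
    have h1 : ![x, y] ∈ ⋃ i, E i := by rw [hE]; trivial
    obtain ⟨i, hi⟩ := mem_iUnion.1 h1
    fin_cases i
    · exact hi
    · exact (hx hi).elim

theorem fub_of_fub2 (h : Fub2) : Fub 2 := by
  obtain ⟨E, h1, h2⟩ := h
  refine ⟨![{x | (x 0, x 1) ∉ E}, {x | (x 0, x 1) ∈ E}], ?_, ?_⟩
  · refine eq_univ_of_forall fun x => mem_iUnion.2 ?_
    by_cases hx : (x 0, x 1) ∈ E
    · exact ⟨1, hx⟩
    · exact ⟨0, hx⟩
  · intro i x
    fin_cases i
    · refine measure_mono_null ?_ (h2 (x 1))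
      intro t ht
      have : ((Function.update x 0 t) 0, (Function.update x 0 t) 1) ∉ E := ht
      simpa using this
    · refine measure_mono_null ?_ (h1 (x 0))
      intro t ht
      have : ((Function.update x 1 t) 0, (Function.update x 1 t) 1) ∈ E := ht
      simpa using this

/-- Finite unions of naively Haar null sets, and Q2 of MP_8b9ec4_lc: some Polish group is the union
of two disjoint naively Haar null sets if and only if there is a subset of the unit square with null
vertical sections and conull horizontal sections; if the sets of reals of size less than the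
continuum are null, then all Polish groups with an uncountable closed central section are. -/
theorem result :
    (∀ (k : ℕ) (G : Type u) [Group G] [TopologicalSpace G] [IsTopologicalGroup G] [PolishSpace G]
      [MeasurableSpace G] [BorelSpace G], Cov k G → Fub k) ∧
    (∀ (k : ℕ) [MeasurableSpace (Multiplicative (Fin k → ℝ))]
      [BorelSpace (Multiplicative (Fin k → ℝ))], Fub k → Cov k (Multiplicative (Fin k → ℝ))) ∧
    (∀ (G : Type u) [Group G] [TopologicalSpace G] [IsTopologicalGroup G] [PolishSpace G]
      [MeasurableSpace G] [BorelSpace G],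
      (∃ S : Set G, NaivelyHaarNull S ∧ NaivelyHaarNull Sᶜ) → Fub2) ∧
    (∀ [MeasurableSpace (Multiplicative (Fin 2 → ℝ))] [BorelSpace (Multiplicative (Fin 2 → ℝ))],
      Fub2 → ∃ S : Set (Multiplicative (Fin 2 → ℝ)), NaivelyHaarNull S ∧ NaivelyHaarNull Sᶜ) ∧
    ((∀ A : Set ℝ, Cardinal.mk A < Cardinal.continuum → volume A = 0) →
      (∀ (G : Type) [Group G] [TopologicalSpace G] [IsTopologicalGroup G] [PolishSpace G]
        [MeasurableSpace G] [BorelSpace G] (N M : Subgroup G), N.Normal →
        IsClosed (N : Set G) → IsClosed (M : Set G) →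
        (∀ g : G, ∀ m ∈ M, g * m * g⁻¹ * m⁻¹ ∈ N) → Uncountable (M ⧸ N.subgroupOf M) →
        ∃ S : Set G, NaivelyHaarNull S ∧ NaivelyHaarNull Sᶜ) ∧
      (∀ (G : Type) [CommGroup G] [TopologicalSpace G] [IsTopologicalGroup G] [PolishSpace G]
        [MeasurableSpace G] [BorelSpace G] [Uncountable G],
        ∃ S : Set G, NaivelyHaarNull S ∧ NaivelyHaarNull Sᶜ)) := by
  refine ⟨?_, ?_, ?_, ?_, ?_⟩
  · intro k G _ _ _ _ _ _ h
    exact fub_of_cov h
  · intro k _ _ h
    exact cov_of_fub h
  · intro G _ _ _ _ _ _ ⟨S, h1, h2⟩
    apply fub2_of_fub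
    refine fub_of_cov (G := G) ⟨![S, Sᶜ], ?_, ?_⟩
    · intro i
      fin_cases i
      · exact h1
      · exact h2
    · refine eq_univ_of_forall fun x => mem_iUnion.2 ?_
      by_cases hx : x ∈ S
      · exact ⟨0, hx⟩
      · exact ⟨1, hx⟩
  · intro _ _ h
    obtain ⟨S, h1, h2⟩ := cov_of_fub (fub_of_fub2 h)
    refine ⟨S 0, h1 0, nhn_mono ?_ (h1 1)⟩
    intro x hx
    have h3 : x ∈ ⋃ i, S i := by rw [h2]; trivial
    obtain ⟨i, hi⟩ := mem_iUnion.1 h3
    fin_cases i
    · exact (hx hi).elim
    · exact hi
  · intro hnull
    refine ⟨?_, ?_⟩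
    · intro G _ _ _ _ _ _ N M hn hN hM hc hun
      exact cover2 N M hn hN hM hc hun hnull
    · intro G _ _ _ _ _ _ _
      refine cover2 (⊥ : Subgroup G) ⊤ inferInstance isClosed_singleton isClosed_univ ?_ ?_ hnull
      · intro g m _
        rw [Subgroup.mem_bot, mul_comm g m]
        group
      · rw [← not_countable_iff]
        intro hcount
        have hs : Countable ((⊥ : Subgroup G).subgroupOf ⊤) := by
          have : (⊥ : Subgroup G).subgroupOf ⊤ = ⊥ := by simp
          rw [this]
          infer_instance
        have h1 : Countable (⊤ : Subgroup G) := (Subgroup.groupEquivQuotientProdSubgroup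
          (s := (⊥ : Subgroup G).subgroupOf ⊤)).countable_iff.2 inferInstance
        have h2 : Countable G := (Subgroup.topEquiv (G := G)).toEquiv.countable_iff.1 h1
        exact not_countable h2

end Pool.Agent.Results.MP_8b9ec4_lc.TwoPieces
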